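import Pool.Agent.H85.OU.Mh

/-!
# The odd part of a modular form is a form (MP_17d720_OP, block F)

`τ ↦ g(τ + 1/2)`: with `A = [[2,1],[0,2]]`, `γ' = A γ A⁻¹` is integral for `γ ∈ Γ₀(4)`.
For any `γ ∈ SL₂(ℤ)`: `A γ = γ' [[p,q],[0,s]]`, `γ' ∈ SL₂(ℤ)`, `p, s > 0`.
-/

open PowerSeries UpperHalfPlane ModularForm MatrixGroups CongruenceSubgroup
open scoped Manifold

namespace Pool.Agent.H90.OP

open Pool.Agent.H85.OT Pool.Agent.H85.OU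

/-- `τ + 1/2` -/
noncomputable def Sh_1 (τ : ℍ) : ℍ := ⟨(τ : ℂ) + 1 / 2, by simpa using τ.im_pos⟩

theorem Sh_im (p s : ℝ) (_ : 0 < p) (hs : 0 < s) (q : ℝ) (τ : ℍ) :
    (((p : ℂ) * (τ : ℂ) + q) / s).im = p / s * τ.im := by
  rw [show ((p : ℂ) * (τ : ℂ) + q) / s = ((p / s : ℝ) : ℂ) * (τ : ℂ) + ((q / s : ℝ) : ℂ) by
    push_cast
    have : (s : ℂ) ≠ 0 := by exact_mod_cast hs.ne'
    field_simp]
  simp

/-- `(p τ + q) / s` -/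
noncomputable def Sh_u (p s : ℝ) (hp : 0 < p) (hs : 0 < s) (q : ℝ) (τ : ℍ) : ℍ :=
  ⟨((p : ℂ) * (τ : ℂ) + q) / s, by
    rw [Sh_im p s hp hs q τ]
    exact mul_pos (div_pos hp hs) τ.im_pos⟩

theorem Sh_u_lim (p s : ℝ) (hp : 0 < p) (hs : 0 < s) (q : ℝ) :
    Filter.Tendsto (Sh_u p s hp hs q) atImInfty atImInfty :=
  Wb_lim (κ := p / s) (div_pos hp hs) fun τ => Sh_im p s hp hs q τ

theorem Sh_eq (g : ℍ → ℂ) (j : ℤ) (γ γ' : SL(2, ℤ)) (U : ℍ → ℍ) (κ : ℂ)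
    (h1 : ∀ τ : ℍ, denom γ τ = κ * denom γ' (U τ)) (h2 : ∀ τ : ℍ, Sh_1 (γ • τ) = γ' • U τ) :
    (fun τ => g (Sh_1 τ)) ∣[j] γ = fun τ => κ ^ (-j) * (g ∣[j] γ') (U τ) := by
  funext τ
  rw [SL_slash_apply, SL_slash_apply, h1, mul_zpow]
  show g (Sh_1 (γ • τ)) * _ = _
  rw [h2]
  ring

theorem Sh_ne (γ : SL(2, ℤ)) (τ : ℍ) : ((γ 1 0 : ℤ) : ℂ) * (τ : ℂ) + ((γ 1 1 : ℤ) : ℂ) ≠ 0 := by
  rw [← Me_den γ τ]
  exact denom_ne_zero γ τ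

theorem Sh_cusp (g : ℍ → ℂ) (j : ℤ) (γ : SL(2, ℤ)) :
    ∃ (γ' : SL(2, ℤ)) (U : ℍ → ℍ) (κ : ℂ), Filter.Tendsto U atImInfty atImInfty ∧
      (fun τ => g (Sh_1 τ)) ∣[j] γ = fun τ => κ ^ (-j) * (g ∣[j] γ') (U τ) := by
  have hdet := Me_det γ
  have hne := Sh_ne γ
  obtain ⟨a, ha⟩ : ∃ a, γ 0 0 = a := ⟨_, rfl⟩
  obtain ⟨b, hb⟩ : ∃ b, γ 0 1 = b := ⟨_, rfl⟩
  obtain ⟨c, hc⟩ : ∃ c, γ 1 0 = c := ⟨_, rfl⟩
  obtain ⟨d, hd⟩ : ∃ d, γ 1 1 = d := ⟨_, rfl⟩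
  rw [ha, hb, hc, hd] at hdet
  rw [hc, hd] at hne
  have hgcd : Int.gcd (2 * a + c) (2 * c) ≠ 0 := by
    intro h0
    rw [Int.gcd_eq_zero_iff] at h0
    obtain ⟨h1, h2⟩ := h0
    have h3 : c = 0 := by omega
    have h4 : a = 0 := by omega
    rw [h3, h4] at hdet
    simp at hdet
  obtain ⟨p, hp⟩ : ∃ p : ℤ, p = (Int.gcd (2 * a + c) (2 * c) : ℤ) := ⟨_, rfl⟩
  have hp0 : 0 < p := by
    rw [hp]
    exact_mod_cast Nat.pos_of_ne_zero hgcd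
  obtain ⟨u, hu⟩ : p ∣ 2 * a + c := by rw [hp]; exact Int.gcd_dvd_left _ _
  obtain ⟨w, hw⟩ : p ∣ 2 * c := by rw [hp]; exact Int.gcd_dvd_right _ _
  obtain ⟨x, y, hxy⟩ : ∃ x y : ℤ, u * x + w * y = 1 := by
    have h := Int.gcd_eq_gcd_ab (2 * a + c) (2 * c)
    obtain ⟨x, hx⟩ : ∃ x, x = Int.gcdA (2 * a + c) (2 * c) := ⟨_, rfl⟩
    obtain ⟨y, hy⟩ : ∃ y, y = Int.gcdB (2 * a + c) (2 * c) := ⟨_, rfl⟩
    rw [← hp, ← hx, ← hy, hu, hw] at h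
    exact ⟨x, y, mul_left_cancel₀ hp0.ne' (by linear_combination -h)⟩
  obtain ⟨q, hq⟩ : ∃ q : ℤ, q = x * (2 * b + d) + 2 * d * y := ⟨_, rfl⟩
  obtain ⟨s, hs⟩ : ∃ s : ℤ, s = -w * (2 * b + d) + 2 * d * u := ⟨_, rfl⟩
  have hps : p * s = 4 := by
    rw [hs]
    linear_combination (-(2 * b + d)) * (-hw) * 1 + (2 * d) * (-hu) * 1 + 4 * hdet
  have hs0 : 0 < s := by
    by_contra hcon
    have : p * s ≤ 0 := mul_nonpos_of_nonneg_of_nonpos hp0.le (not_lt.1 hcon)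
    omega
  have hp' : (0 : ℝ) < (p : ℝ) := by exact_mod_cast hp0
  have hs' : (0 : ℝ) < (s : ℝ) := by exact_mod_cast hs0
  have e1 : w * p = 2 * c := by rw [hw]; ring
  have e2 : w * q + x * s = 2 * d := by
    rw [hq, hs]
    linear_combination (2 * d) * hxy
  have e3 : u * p = 2 * a + c := by rw [hu]; ring
  have e4 : u * q - y * s = 2 * b + d := by
    rw [hq, hs]
    linear_combination (2 * b + d) * hxy
  have hdet' : u * x - (-y) * w = 1 := by rw [← hxy]; ring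
  have hsC : ((s : ℤ) : ℂ) ≠ 0 := by exact_mod_cast hs0.ne'
  have e1' : (w : ℂ) * p = 2 * c := by exact_mod_cast e1
  have e2' : (w : ℂ) * q + x * s = 2 * d := by exact_mod_cast e2
  have e3' : (u : ℂ) * p = 2 * a + c := by exact_mod_cast e3
  have e4' : (u : ℂ) * q - y * s = 2 * b + d := by exact_mod_cast e4
  have hcoe : ∀ τ : ℍ, ((Sh_u p s hp' hs' q τ : ℍ) : ℂ) = ((p : ℂ) * τ + q) / s := by
    intro τ
    show (((p : ℝ) : ℂ) * (τ : ℂ) + ((q : ℝ) : ℂ)) / ((s : ℝ) : ℂ) = _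
    push_cast
    rfl
  have hden : ∀ τ : ℍ, (w : ℂ) * ((Sh_u p s hp' hs' q τ : ℍ) : ℂ) + (x : ℂ) = 2 * (c * τ + d) / s := by
    intro τ
    rw [hcoe, eq_div_iff hsC]
    field_simp
    linear_combination (τ : ℂ) * e1' + e2'
  refine ⟨Wb_m u (-y) w x hdet', Sh_u p s hp' hs' q, (s : ℂ) / 2, Sh_u_lim p s hp' hs' q,
    Sh_eq g j _ _ _ _ ?_ ?_⟩
  · intro τ
    rw [Me_den, Me_den, hc, hd]
    show ((c : ℤ) : ℂ) * τ + d = (s : ℂ) / 2 * (((w : ℤ) : ℂ) * ((Sh_u p s hp' hs' q τ : ℍ) : ℂ) + ((x : ℤ) : ℂ))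
    rw [hden]
    field_simp
  · intro τ
    apply UpperHalfPlane.ext
    rw [Me_coe]
    show ((γ • τ : ℍ) : ℂ) + 1 / 2 = (((u : ℤ) : ℂ) * ((Sh_u p s hp' hs' q τ : ℍ) : ℂ) + (((-y : ℤ)) : ℂ)) /
      (((w : ℤ) : ℂ) * ((Sh_u p s hp' hs' q τ : ℍ) : ℂ) + ((x : ℤ) : ℂ))
    rw [Me_coe, ha, hb, hc, hd, hden, hcoe]
    have h1 := hne τ
    have h2 : (u : ℂ) * (((p : ℂ) * τ + q) / s) + (((-y : ℤ)) : ℂ) = ((2 * a + c) * τ + (2 * b + d)) / s := by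
      rw [eq_div_iff hsC]
      push_cast
      field_simp
      linear_combination (τ : ℂ) * e3' + e4'
    rw [h2, div_div_div_cancel_right₀ hsC, div_add_div _ _ h1 two_ne_zero,
      div_eq_div_iff (mul_ne_zero h1 two_ne_zero) (mul_ne_zero two_ne_zero h1)]
    ring

/-- the integral matrix `2 α`, `α = [[1, 1/2], [0, 1]]` -/
def Sh_A : Matrix (Fin 2) (Fin 2) ℤ := !![2, 1; 0, 2]

theorem Sh_ex (γ : Gamma0 4) : ∃ γ' : SL(2, ℤ), Sh_A * ((γ : SL(2, ℤ)) : Matrix (Fin 2) (Fin 2) ℤ) =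
    (γ' : Matrix (Fin 2) (Fin 2) ℤ) * Sh_A := by
  have hdet := Me_det (γ : SL(2, ℤ))
  have hc := γ.2
  rw [Gamma0_mem] at hc
  obtain ⟨k, hk⟩ := (ZMod.intCast_zmod_eq_zero_iff_dvd ((γ : SL(2, ℤ)) 1 0) 4).1 hc
  obtain ⟨a, ha⟩ : ∃ a, (γ : SL(2, ℤ)) 0 0 = a := ⟨_, rfl⟩
  obtain ⟨b, hb⟩ : ∃ b, (γ : SL(2, ℤ)) 0 1 = b := ⟨_, rfl⟩
  obtain ⟨d, hd⟩ : ∃ d, (γ : SL(2, ℤ)) 1 1 = d := ⟨_, rfl⟩
  have hk' : (γ : SL(2, ℤ)) 1 0 = 4 * k := by exact_mod_cast hk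
  rw [ha, hb, hk', hd] at hdet
  obtain ⟨m, hm⟩ : ∃ m : ℤ, d = a + 2 * m := by
    have h1 : a * d = 1 + 2 * (2 * b * k) := by linarith
    have h2 : Odd (a * d) := ⟨2 * b * k, by rw [h1]; ring⟩
    rw [Int.odd_mul] at h2
    obtain ⟨⟨a', ha'⟩, ⟨d', hd'⟩⟩ := h2
    exact ⟨d' - a', by rw [ha', hd']; ring⟩
  have h : (a + 2 * k) * (d - 2 * k) - (b + m - k) * (4 * k) = 1 := by
    rw [hm] at hdet ⊢
    linarith
  refine ⟨Wb_m _ _ _ _ h, ?_⟩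
  have e : ((γ : SL(2, ℤ)) : Matrix (Fin 2) (Fin 2) ℤ) = !![a, b; 4 * k, d] := by
    rw [← ha, ← hb, ← hk', ← hd]
    exact Matrix.eta_fin_two _
  rw [e]
  show !![2, 1; 0, 2] * !![a, b; 4 * k, d] = !![_, _; _, _] * !![2, 1; 0, 2]
  rw [Matrix.mul_fin_two, Matrix.mul_fin_two]
  congr 1
  ext i j
  fin_cases i <;> fin_cases j <;> simp <;> first | ring1 | (rw [hm]; ring1)

theorem Sh_can (M N : Matrix (Fin 2) (Fin 2) ℤ) (h : M * Sh_A = N * Sh_A) : M = N := by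
  have h2 : Sh_A * !![2, -1; 0, 2] = !![4, 0; 0, 4] := by
    unfold Sh_A
    rw [Matrix.mul_fin_two]
    norm_num
  have h3 := congrArg (fun Q => Q * !![2, -1; 0, 2]) h
  simp only [Matrix.mul_assoc, h2] at h3
  ext i j
  have h4 := congrFun (congrFun h3 i) j
  rw [Matrix.mul_apply, Matrix.mul_apply, Fin.sum_univ_two, Fin.sum_univ_two] at h4
  fin_cases j <;> simp at h4 ⊢ <;> exact h4

theorem Sh_uniq (γ : Gamma0 4) (δ : SL(2, ℤ))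
    (h : Sh_A * ((γ : SL(2, ℤ)) : Matrix (Fin 2) (Fin 2) ℤ) = (δ : Matrix (Fin 2) (Fin 2) ℤ) * Sh_A) :
    (Sh_ex γ).choose = δ :=
  Subtype.ext (Sh_can _ _ ((Sh_ex γ).choose_spec.symm.trans h))

theorem Sh_mul (x y u v : SL(2, ℤ))
    (h2 : Sh_A * (x : Matrix (Fin 2) (Fin 2) ℤ) = (u : Matrix (Fin 2) (Fin 2) ℤ) * Sh_A)
    (h3 : Sh_A * (y : Matrix (Fin 2) (Fin 2) ℤ) = (v : Matrix (Fin 2) (Fin 2) ℤ) * Sh_A) :
    Sh_A * ((x * y : SL(2, ℤ)) : Matrix (Fin 2) (Fin 2) ℤ) =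
      ((u * v : SL(2, ℤ)) : Matrix (Fin 2) (Fin 2) ℤ) * Sh_A := by
  rw [Matrix.SpecialLinearGroup.coe_mul, Matrix.SpecialLinearGroup.coe_mul, Matrix.mul_assoc (u : Matrix (Fin 2) (Fin 2) ℤ),
    ← h3, ← Matrix.mul_assoc, h2, Matrix.mul_assoc]

/-- `γ ↦ α γ α⁻¹` on `Γ₀(4)` -/
noncomputable def Sh_phi : Gamma0 4 →* SL(2, ℤ) where
  toFun γ := (Sh_ex γ).choose
  map_one' := Sh_uniq 1 1 (by simp)
  map_mul' := fun x y => Sh_uniq (x * y) _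
    (Sh_mul _ _ _ _ (Sh_ex x).choose_spec (Sh_ex y).choose_spec)

theorem Sh_spec (γ : Gamma0 4) : Sh_A * ((γ : SL(2, ℤ)) : Matrix (Fin 2) (Fin 2) ℤ) =
    ((Sh_phi γ : SL(2, ℤ)) : Matrix (Fin 2) (Fin 2) ℤ) * Sh_A := (Sh_ex γ).choose_spec

theorem Sh_inv (g : ℍ → ℂ) (j : ℤ) (γ : Gamma0 4) (hγ : g ∣[j] (Sh_phi γ) = g) :
    (fun τ => g (Sh_1 τ)) ∣[j] (γ : SL(2, ℤ)) = fun τ => g (Sh_1 τ) := by
  have hs := Sh_spec γ
  have f : ∀ i k, (Sh_A * ((γ : SL(2, ℤ)) : Matrix (Fin 2) (Fin 2) ℤ)) i k =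
      (((Sh_phi γ : SL(2, ℤ)) : Matrix (Fin 2) (Fin 2) ℤ) * Sh_A) i k := fun i k => by rw [hs]
  have f00 := f 0 0
  have f01 := f 0 1
  have f10 := f 1 0
  have f11 := f 1 1
  rw [Matrix.mul_apply, Matrix.mul_apply, Fin.sum_univ_two, Fin.sum_univ_two] at f00 f01 f10 f11
  simp only [Sh_A, Matrix.of_apply, Matrix.cons_val', Matrix.cons_val_zero, Matrix.cons_val_one,
    Matrix.cons_val_fin_one] at f00 f01 f10 f11
  obtain ⟨a, ha⟩ : ∃ a, (γ : SL(2, ℤ)) 0 0 = a := ⟨_, rfl⟩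
  obtain ⟨b, hb⟩ : ∃ b, (γ : SL(2, ℤ)) 0 1 = b := ⟨_, rfl⟩
  obtain ⟨c, hc⟩ : ∃ c, (γ : SL(2, ℤ)) 1 0 = c := ⟨_, rfl⟩
  obtain ⟨d, hd⟩ : ∃ d, (γ : SL(2, ℤ)) 1 1 = d := ⟨_, rfl⟩
  obtain ⟨a', ha'⟩ : ∃ a', (Sh_phi γ : SL(2, ℤ)) 0 0 = a' := ⟨_, rfl⟩
  obtain ⟨b', hb'⟩ : ∃ b', (Sh_phi γ : SL(2, ℤ)) 0 1 = b' := ⟨_, rfl⟩
  obtain ⟨c', hc'⟩ : ∃ c', (Sh_phi γ : SL(2, ℤ)) 1 0 = c' := ⟨_, rfl⟩
  obtain ⟨d', hd'⟩ : ∃ d', (Sh_phi γ : SL(2, ℤ)) 1 1 = d' := ⟨_, rfl⟩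
  have hne := Sh_ne (γ : SL(2, ℤ))
  rw [hc, hd] at hne
  have g00 : 2 * a + c = 2 * a' := by
    have := f00
    rw [show ((γ : SL(2, ℤ)) : Matrix (Fin 2) (Fin 2) ℤ) 0 0 = a from ha,
      show ((γ : SL(2, ℤ)) : Matrix (Fin 2) (Fin 2) ℤ) 1 0 = c from hc,
      show ((Sh_phi γ : SL(2, ℤ)) : Matrix (Fin 2) (Fin 2) ℤ) 0 0 = a' from ha',
      show ((Sh_phi γ : SL(2, ℤ)) : Matrix (Fin 2) (Fin 2) ℤ) 0 1 = b' from hb'] at this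
    linarith
  have g01 : 2 * b + d = a' + 2 * b' := by
    have := f01
    rw [show ((γ : SL(2, ℤ)) : Matrix (Fin 2) (Fin 2) ℤ) 0 1 = b from hb,
      show ((γ : SL(2, ℤ)) : Matrix (Fin 2) (Fin 2) ℤ) 1 1 = d from hd,
      show ((Sh_phi γ : SL(2, ℤ)) : Matrix (Fin 2) (Fin 2) ℤ) 0 0 = a' from ha',
      show ((Sh_phi γ : SL(2, ℤ)) : Matrix (Fin 2) (Fin 2) ℤ) 0 1 = b' from hb'] at this
    linarith
  have g10 : 2 * c = 2 * c' := by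
    have := f10
    rw [show ((γ : SL(2, ℤ)) : Matrix (Fin 2) (Fin 2) ℤ) 0 0 = a from ha,
      show ((γ : SL(2, ℤ)) : Matrix (Fin 2) (Fin 2) ℤ) 1 0 = c from hc,
      show ((Sh_phi γ : SL(2, ℤ)) : Matrix (Fin 2) (Fin 2) ℤ) 1 0 = c' from hc',
      show ((Sh_phi γ : SL(2, ℤ)) : Matrix (Fin 2) (Fin 2) ℤ) 1 1 = d' from hd'] at this
    linarith
  have g11 : 2 * d = c' + 2 * d' := by
    have := f11
    rw [show ((γ : SL(2, ℤ)) : Matrix (Fin 2) (Fin 2) ℤ) 0 1 = b from hb,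
      show ((γ : SL(2, ℤ)) : Matrix (Fin 2) (Fin 2) ℤ) 1 1 = d from hd,
      show ((Sh_phi γ : SL(2, ℤ)) : Matrix (Fin 2) (Fin 2) ℤ) 1 0 = c' from hc',
      show ((Sh_phi γ : SL(2, ℤ)) : Matrix (Fin 2) (Fin 2) ℤ) 1 1 = d' from hd'] at this
    linarith
  have k00 : (2 : ℂ) * a + c = 2 * a' := by exact_mod_cast g00
  have k01 : (2 : ℂ) * b + d = a' + 2 * b' := by exact_mod_cast g01
  have k10 : (2 : ℂ) * c = 2 * c' := by exact_mod_cast g10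
  have k11 : (2 : ℂ) * d = c' + 2 * d' := by exact_mod_cast g11
  have hden : ∀ τ : ℍ, (c' : ℂ) * ((τ : ℂ) + 1 / 2) + d' = c * τ + d := by
    intro τ
    linear_combination (-(τ : ℂ) / 2) * k10 - (1 / 2) * k11
  rw [Sh_eq g j (γ : SL(2, ℤ)) (Sh_phi γ) Sh_1 1 ?_ ?_, hγ, one_zpow]
  · funext τ
    rw [one_mul]
  · intro τ
    rw [Me_den, Me_den, hc, hd, hc', hd', one_mul]
    exact (hden τ).symm
  · intro τ
    apply UpperHalfPlane.ext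
    rw [Me_coe, ha', hb', hc', hd']
    show (((γ : SL(2, ℤ)) • τ : ℍ) : ℂ) + 1 / 2 =
      ((a' : ℂ) * ((τ : ℂ) + 1 / 2) + (b' : ℂ)) / ((c' : ℂ) * ((τ : ℂ) + 1 / 2) + (d' : ℂ))
    rw [Me_coe, ha, hb, hc, hd, hden]
    have h1 := hne τ
    rw [eq_div_iff h1, add_mul, div_mul_cancel₀ _ h1]
    linear_combination (τ : ℂ) / 2 * k00 + (1 / 2) * k01

theorem Sh_holo {g : ℍ → ℂ} (hg : MDifferentiable 𝓘(ℂ) 𝓘(ℂ) g) :
    MDifferentiable 𝓘(ℂ) 𝓘(ℂ) (fun τ => g (Sh_1 τ)) := by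
  rw [UpperHalfPlane.mdifferentiable_iff] at hg ⊢
  have h0 : ∀ z : ℂ, (z + 1 / 2).im = z.im := by intro z; simp
  have h1 : DifferentiableOn ℂ (fun z : ℂ => (g ∘ ofComplex) (z + 1 / 2)) {z : ℂ | 0 < z.im} := by
    refine DifferentiableOn.comp (g := g ∘ ofComplex) (f := fun z : ℂ => z + 1 / 2) hg (by fun_prop) ?_
    intro z hz
    show 0 < (z + 1 / 2).im
    rw [h0]
    exact hz
  refine h1.congr fun z hz => ?_
  have hz' : 0 < z.im := hz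
  have h3 : 0 < (z + 1 / 2).im := by rw [h0]; exact hz'
  simp only [Function.comp]
  rw [ofComplex_apply_of_im_pos hz', ofComplex_apply_of_im_pos h3]
  rfl

/-- `F(-q)` -/
noncomputable def alt {R : Type*} [CommRing R] (F : R⟦X⟧) : R⟦X⟧ := PowerSeries.mk fun n => (-1) ^ n * PowerSeries.coeff n F

theorem Sh_Cv {F : ℂ⟦X⟧} {q s : ℂ} (h : Cv F (-q) s) : Cv (alt F) q s := by
  have e : ∀ n, PowerSeries.coeff n (alt F) * q ^ n = PowerSeries.coeff n F * (-q) ^ n := by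
    intro n
    rw [alt, PowerSeries.coeff_mk, neg_pow]
    ring
  obtain ⟨h1, h2⟩ := h
  refine ⟨h1.congr fun n => ?_, ?_⟩
  · rw [e]
  · have : (fun n => PowerSeries.coeff n (alt F) * q ^ n) = fun n => PowerSeries.coeff n F * (-q) ^ n := funext e
    rw [this]
    exact h2

theorem exists_alt {Γ : Subgroup SL(2, ℤ)} (hfin : Γ.FiniteIndex) (hT : ModularGroup.T ∈ Γ)
    {j : ℤ} {g : ℍ → ℂ} (hg : IsMF Γ j g) {G : ℂ⟦X⟧} (hG : QE g G) :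
    ∃ (Γ2 : Subgroup SL(2, ℤ)) (g2 : ℍ → ℂ), Γ2.FiniteIndex ∧ ModularGroup.T ∈ Γ2 ∧
      IsMF Γ2 j g2 ∧ QE g2 (alt G) := by
  refine ⟨(Γ.comap Sh_phi).map (Gamma0 4).subtype, fun τ => g (Sh_1 τ), ?_, ?_, ⟨Sh_holo hg.1, ?_, ?_⟩, ?_⟩
  · refine ⟨?_⟩
    rw [Subgroup.index_map_subtype]
    have h1 := (Me_fin Sh_phi Γ hfin).index_ne_zero
    have h2 := (inferInstance : (Gamma0 4).FiniteIndex).index_ne_zero
    exact mul_ne_zero h1 h2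
  · rw [Subgroup.mem_map]
    have hT0 : ModularGroup.T ∈ Gamma0 4 := by
      rw [Gamma0_mem]
      simp [ModularGroup.T]
    refine ⟨⟨ModularGroup.T, hT0⟩, ?_, rfl⟩
    rw [Subgroup.mem_comap]
    have h1 : Sh_phi ⟨ModularGroup.T, hT0⟩ = ModularGroup.T := by
      apply Subtype.ext
      apply Sh_can
      rw [← Sh_spec]
      show Sh_A * !![1, 1; 0, 1] = !![1, 1; 0, 1] * Sh_A
      unfold Sh_A
      rw [Matrix.mul_fin_two, Matrix.mul_fin_two]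
      norm_num
    rw [h1]
    exact hT
  · intro γ hγ
    rw [Subgroup.mem_map] at hγ
    obtain ⟨x, hx, rfl⟩ := hγ
    exact Sh_inv g j x (hg.2.1 _ hx)
  · intro γ
    obtain ⟨γ', U, κ, hU, h⟩ := Sh_cusp g j γ
    rw [h]
    exact Me_bdd (hg.2.2 γ') hU _
  · intro τ
    refine Sh_Cv ?_
    have h1 := hG (Sh_1 τ)
    have h2 : Complex.exp (2 * Real.pi * Complex.I * ((Sh_1 τ : ℍ) : ℂ)) =
        -Complex.exp (2 * Real.pi * Complex.I * (τ : ℂ)) := by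
      show Complex.exp (2 * Real.pi * Complex.I * ((τ : ℂ) + 1 / 2)) = _
      rw [show 2 * Real.pi * Complex.I * ((τ : ℂ) + 1 / 2) =
        2 * Real.pi * Complex.I * (τ : ℂ) + Real.pi * Complex.I by ring, Complex.exp_add, Complex.exp_pi_mul_I]
      ring
    rw [h2] at h1
    exact h1

/-- the odd part -/
noncomputable def odd {R : Type*} [CommRing R] (F : R⟦X⟧) : R⟦X⟧ :=
  PowerSeries.mk fun n => if Odd n then PowerSeries.coeff n F else 0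

theorem odd_eq (F : ℂ⟦X⟧) :
    odd F = PowerSeries.C (1 / 2 : ℂ) * F + PowerSeries.C (-(1 / 2) : ℂ) * alt F := by
  ext n
  rw [odd, alt, PowerSeries.coeff_mk, map_add, PowerSeries.coeff_C_mul, PowerSeries.coeff_C_mul, PowerSeries.coeff_mk]
  by_cases h : Odd n
  · rw [if_pos h, h.neg_one_pow]
    ring
  · rw [if_neg h, (Nat.not_odd_iff_even.1 h).neg_one_pow]
    ring

theorem lform_odd {Γ : Subgroup SL(2, ℤ)} (hfin : Γ.FiniteIndex) (hT : ModularGroup.T ∈ Γ)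
    {k : ℕ} {g : ℍ → ℂ} (hg : IsMF Γ (k : ℤ) g) {G : ℂ⟦X⟧} (hG : QE g G) : LForm ℂ k (odd G) := by
  obtain ⟨Γ2, g2, h2fin, h2T, hg2, hG2⟩ := exists_alt hfin hT hg hG
  rw [odd_eq]
  exact ((lform_of_mf hfin hT hg hG).smul _).add ((lform_of_mf h2fin h2T hg2 hG2).smul _)

theorem odd_map {R S : Type*} [CommRing R] [CommRing S] (φ : R →+* S) (F : R⟦X⟧) :
    PowerSeries.map φ (odd F) = odd (PowerSeries.map φ F) := by
  ext n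
  rw [PowerSeries.coeff_map, odd, odd, PowerSeries.coeff_mk, PowerSeries.coeff_mk, PowerSeries.coeff_map]
  split_ifs
  · rfl
  · exact map_zero φ

end Pool.Agent.H90.OP
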