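import Pool.Agent.H85.OP.Fin
import Pool.Agent.H85.OT.Vhec

/-!
# Ramanujan's tau function (MP_17d720_OP, application)
-/

open PowerSeries UpperHalfPlane ModularForm MatrixGroups CongruenceSubgroup
open scoped Manifold
open Pool.Agent.H85.OT Pool.Agent.H85.OU Pool.Agent.H85.OP

namespace Pool.Agent.H90.OP

theorem isMF_delta : IsMF ⊤ ((12 : ℕ) : ℤ) (ModularForm.discriminant : ℍ → ℂ) := by
  have hinv : ∀ γ : SL(2, ℤ), (ModularForm.discriminant : ℍ → ℂ) ∣[((12 : ℕ) : ℤ)] γ = ModularForm.discriminant :=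
    fun γ => Vhec_inv γ
  refine ⟨CuspForm.discriminant.holo', fun γ _ => hinv γ, fun γ => ?_⟩
  rw [hinv γ]
  exact discriminant_isZeroAtImInfty.isBoundedAtImInfty

/-- `p ∤ τ(p)` for a positive lower density of the primes, from the core theorem -/
theorem tau_of_core (core : Core) : PosLower (fun p => ¬ (p : ℤ) ∣ tau p) := by
  have hG := isMF_delta.exists_QE (Subgroup.mem_top _)
  rw [q_delta] at hG
  have h1 := lform_oddp (inferInstance : (⊤ : Subgroup SL(2, ℤ)).FiniteIndex) isMF_delta hG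
  rw [← map_oddp] at h1
  have e : PowerSeries.map (algebraMap ℚ ℂ) (PowerSeries.map (Int.castRingHom ℚ) (oddp ℤ (PowerSeries.mk tau))) =
      PowerSeries.map (Int.castRingHom ℂ) (oddp ℤ (PowerSeries.mk tau)) := by
    ext n
    simp
  rw [← e] at h1
  have h2 := core (oddp ℤ (PowerSeries.mk tau)) 12 (by norm_num) (LForm.descend _ h1)
    (fun n hn => by rw [coeff_oddp, if_pos hn])
    (fun h => by
      have h3 := congrArg (PowerSeries.coeff 1) h
      rw [coeff_oddp, if_neg (by norm_num), PowerSeries.coeff_mk, tau_one, _root_.map_zero] at h3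
      exact one_ne_zero h3)
  refine PosLower_prime 0 (fun p _ hp ho hd => ?_) h2
  obtain ⟨m, hm, h3⟩ := ho
  apply h3
  have hm1 : 1 ≤ m := by
    rcases Nat.eq_zero_or_pos m with h | h
    · rw [h, mul_zero] at hm
      exact absurd (dvd_zero 2) hm
    · exact h
  rw [coeff_oddp, if_neg hm, PowerSeries.coeff_mk, mordell p hp m hm1]
  exact dvd_sub (hd.mul_right _) (Dvd.dvd.mul_right (dvd_pow_self _ (by norm_num)) _)

end Pool.Agent.H90.OP
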