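import Pool.Agent.H85.OU.ThC
import Pool.Agent.H90.OP.Sh
import Pool.Agent.H68.OP.Defs
import Pool.Agent.H6.OR.Ea

/-!
# Number fields and modular forms (MP_17d720_OP, block F)

From the theorem for `f ∈ ℤ⟦X⟧` with odd exponents (`MainZ`) to coefficients in the integers of a number field (trace), and to
modular forms for subgroups of finite index of `SL₂(ℤ)`; eigenforms.
-/

open PowerSeries UpperHalfPlane ModularForm MatrixGroups CongruenceSubgroup NumberField
open Pool.Agent.H85.OT Pool.Agent.H85.OU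

namespace Pool.Agent.H90.OP

/-- `p ∤ a_(p m)` for some `m` with `p m` odd -/
def O1R {R : Type*} [CommRing R] (F : R⟦X⟧) (p : ℕ) : Prop :=
  ∃ m : ℕ, Odd (p * m) ∧ ¬ ((p : R) ∣ PowerSeries.coeff (p * m) F)

/-- the theorem for series with integer coefficients and odd exponents -/
def MainZ : Prop := ∀ (f : ℤ⟦X⟧) (k : ℕ), 3 ≤ k → (∀ n, 2 ∣ n → PowerSeries.coeff n f = 0) → f ≠ 0 →
  LForm ℚ k (PowerSeries.map (Int.castRingHom ℚ) f) → PosLower (Pool.Agent.H68.OP.O1 f)

theorem posLower_mono {P Q : ℕ → Prop} (h : ∀ p, P p → Q p) (hP : PosLower P) : PosLower Q := by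
  classical
  obtain ⟨c, hc, x0, hx⟩ := hP
  refine ⟨c, hc, x0, fun x hx0 => (hx x hx0).trans ?_⟩
  unfold cnt
  refine Nat.cast_le.2 (Finset.card_le_card fun p hp => ?_)
  rw [Finset.mem_filter] at hp ⊢
  exact ⟨hp.1, hp.2.1, h p hp.2.2⟩

/-- coefficients in a number field, odd exponents -/
theorem posLower_OE (H : MainZ) (E : Type) [Field E] [NumberField E] (F : (𝓞 E)⟦X⟧) (k : ℕ) (hk : 3 ≤ k)
    (hodd : ∀ n, 2 ∣ n → PowerSeries.coeff n F = 0)
    (hF : LForm E k (PowerSeries.map (algebraMap (𝓞 E) E) F)) (hne : F ≠ 0) : PosLower (O1R F) := by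
  obtain ⟨r, hr⟩ : ∃ r, PowerSeries.coeff r F ≠ 0 := by
    by_contra hcon
    push Not at hcon
    exact hne (PowerSeries.ext fun n => by rw [hcon n, _root_.map_zero])
  obtain ⟨β, m, hm, hβ⟩ : ∃ (β : 𝓞 E) (m : ℤ), m ≠ 0 ∧
      β * PowerSeries.coeff r F = algebraMap ℤ (𝓞 E) m := by
    have h1 := Ideal.absNorm_mem (Ideal.span {PowerSeries.coeff r F})
    obtain ⟨β, hβ⟩ := Ideal.mem_span_singleton'.1 h1
    refine ⟨β, (Ideal.absNorm (Ideal.span {PowerSeries.coeff r F}) : ℤ), ?_, ?_⟩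
    · rw [Nat.cast_ne_zero]
      intro h2
      rw [Ideal.absNorm_eq_zero_iff, Ideal.span_singleton_eq_bot] at h2
      exact hr h2
    · rw [hβ]
      simp
  have hd := H (PowerSeries.mk fun n => ThC_T E β (PowerSeries.coeff n F)) k hk
    (fun n hn => by rw [PowerSeries.coeff_mk, hodd n hn, _root_.map_zero]) (fun h => ?_) (ThC_form E F k hF β)
  · refine posLower_mono (fun p hp => ?_) hd
    obtain ⟨m, h1, h2⟩ := hp
    refine ⟨m, ?_, fun h3 => h2 ?_⟩
    · rw [← Nat.not_even_iff_odd, even_iff_two_dvd]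
      exact h1
    · rw [PowerSeries.coeff_mk]
      have h4 := ThC_T_dvd E β (PowerSeries.coeff (p * m) F) p 1 (by rwa [pow_one])
      rwa [pow_one] at h4
  · have h1 := congrArg (PowerSeries.coeff r) h
    rw [PowerSeries.coeff_mk, _root_.map_zero, ThC_T_apply, hβ, Algebra.trace_algebraMap,
      nsmul_eq_mul] at h1
    rcases mul_eq_zero.1 h1 with h2 | h2
    · have h3 : 0 < Module.finrank ℤ (𝓞 E) := Module.finrank_pos
      have h4 : (Module.finrank ℤ (𝓞 E)) = 0 := by exact_mod_cast h2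
      omega
    · exact hm h2

/-- modular forms of weight `k ≥ 3` for subgroups of finite index of `SL₂(ℤ)` -/
theorem main_mf (H : MainZ) (E : Type) [Field E] [NumberField E] (σ : E →+* ℂ) (Γ : Subgroup SL(2, ℤ))
    [hfin : Γ.FiniteIndex] (hT : ModularGroup.T ∈ Γ) (k : ℕ) (hk : 3 ≤ k)
    (g : ModularForm (Γ : Subgroup (GL (Fin 2) ℝ)) (k : ℤ)) (F : (𝓞 E)⟦X⟧)
    (hF : qExpansion 1 (g : ℍ → ℂ) = PowerSeries.map (σ.comp (algebraMap (𝓞 E) E)) F)
    (r : ℕ) (hr : Odd r) (hne : PowerSeries.coeff r F ≠ 0) : PosLower (O1R F) := by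
  have hg := IsMF.of_modularForm g
  have h1 : LForm ℂ k (odd (qExpansion 1 (g : ℍ → ℂ))) := lform_odd hfin hT hg (hg.exists_QE hT)
  rw [hF, ← odd_map] at h1
  have h2 : LForm E k (PowerSeries.map (algebraMap (𝓞 E) E) (odd F)) := by
    refine LForm.descend σ ?_
    have e : PowerSeries.map σ (PowerSeries.map (algebraMap (𝓞 E) E) (odd F)) =
        PowerSeries.map (σ.comp (algebraMap (𝓞 E) E)) (odd F) := by
      ext n
      simp
    rwa [e]
  have h3 : ∀ n, Odd n → PowerSeries.coeff n (odd F) = PowerSeries.coeff n F := fun n hn => by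
    rw [odd, PowerSeries.coeff_mk, if_pos hn]
  refine posLower_mono (fun p hp => ?_) (posLower_OE H E (odd F) k hk (fun n hn => ?_) h2 ?_)
  · obtain ⟨m, hm, h4⟩ := hp
    refine ⟨m, hm, ?_⟩
    rwa [h3 _ hm] at h4
  · rw [odd, PowerSeries.coeff_mk, if_neg]
    rw [Nat.not_odd_iff_even, even_iff_two_dvd]
    exact hn
  · intro h4
    apply hne
    rw [← h3 r hr, h4, _root_.map_zero]

/-- eigenforms -/
theorem main_eig {R : Type*} [CommRing R] (k : ℕ) (hk : 2 ≤ k) (F : R⟦X⟧) (h : PosLower (O1R F)) (N : ℕ) (hN : 1 ≤ N)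
    (χ : ℕ → R) (heck : ∀ p : ℕ, p.Prime → ¬ p ∣ N → ∀ n : ℕ, 1 ≤ n → PowerSeries.coeff (p * n) F =
      PowerSeries.coeff p F * PowerSeries.coeff n F -
        χ p * (p : R) ^ (k - 1) * (if p ∣ n then PowerSeries.coeff (n / p) F else 0)) :
    PosLower (fun p => ¬ (p : R) ∣ PowerSeries.coeff p F) := by
  refine Pool.Agent.H6.OR.posLower_of_large N (fun p hp hNp ho hd => ?_) h
  obtain ⟨m, hm, h1⟩ := ho
  apply h1
  have hm1 : 1 ≤ m := by
    rcases Nat.eq_zero_or_pos m with h2 | h2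
    · rw [h2, mul_zero] at hm
      exact absurd hm (by decide)
    · exact h2
  rw [heck p hp (fun h2 => absurd (Nat.le_of_dvd (by omega) h2) (by omega)) m hm1]
  refine dvd_sub (hd.mul_right _) (Dvd.dvd.mul_right (Dvd.dvd.mul_left (dvd_pow_self _ (by omega)) _) _)

end Pool.Agent.H90.OP
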